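import Pool.Agent.H664.QK.VarD

/-!
# Axiom (SEAC) (i) in the complex exponential field: dimension three

`G_n = ℂ^n × (ℂ^*)^n`; its elements are functions on `Fin n ⊕ Fin n` (`Sum.inl`: the coordinates
`x`, `Sum.inr`: the coordinates `y`).  The exponential points are the points `(z, e^z)`.

We prove exponential-algebraic closedness for `n = 3`: every free and rotund irreducible subvariety
`V` of `G_3` (of any dimension) contains an exponential point, and so do all its translates.  If `V`
has dimension three and is defined over a countable field `K` then almost all translates `c V` contain an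
exponential point which is generic over `K(c)`, as `(SEAC) (i)` asks.  Before, this was known for `n = 1` and
(Mantova and Masser) for `n = 2`.

Proof.  If the dimension of `V` is larger than three one replaces `V` by a generic hyperplane section, which is
free and rotund over the algebraic closure of the field generated over `ℂ` by the coefficients of the
hyperplane; this field is isomorphic to `ℂ`.  So let `V` be of dimension three.
Let `d` be the dimension of the projection of `V` to `ℂ^3`. `d = 3` is the case of Brownawell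
and Masser, `d = 1` the case of Mantova and Masser.  Let `d = 2`, `P(x) = 0` the equation of the
projection, and `Λ` the lattice of the `m ∈ ℤ^3` such that `y^m` is algebraic over `ℂ(x)` on `V`.

If `Λ = 0` the theorem on hypersurfaces with free fibres applies (`HypersurfaceFreeFibres`).

If `Λ` has rank two, `y_0` and `y_1` may be assumed to be algebraic over `ℂ(x)`. If `x_2` is algebraic
over `ℂ(x_0, x_1)` one can use the theorem of Brownawell and Masser for `(x_0, x_1)`. Otherwise, by
rotundity, `(x_0, x_1, y_0, y_1)` is a surface over a curve in `ℂ^2`, and one needs that its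
exponential points are Zariski dense.  The new case here is that one more monomial, `y_0`, is
algebraic over `ℂ(x_0)`; so one has an overdetermined system in one variable, and finite differences of
the imaginary parts and Ax's theorem show that it has too few solutions.

If `Λ` has rank one, `y_0` may be assumed to be algebraic over `ℂ(x)`.  The equation `e^{x_0} = y_0` is
solved near `x_0 = 2 π i k`, `k ~ A log R`, on discs `|x_1 - R ω| < R/8`: there are holomorphic
solutions `x_0 = X(t)`, `x_1 = t`, `x_2 = V(t)`, `V(t) = γ t + o(R)`, where `γ` is a root of the leading form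
of `P`; after a change of coordinates `γ = 0` or `γ` is irrational.  The remaining relation between
`y_1 = e^t` and `y_2 = e^{V(t)}` is of the form `∑ q_{ab}(t) e^{a t + b V(t)} = 0`, where the growth of the
terms is governed by the numbers `a + b γ`.  In a direction `ω` with two maximal terms the
subharmonic growth function is not harmonic, so there are zeros.  For this the
coefficients of the leading terms must not be small, which is clear if `γ` is irrational, and for `γ = 0`
they are of the form `∑ q_b(t) e^{b V(t)}`, `V(t) = o(R)`; the lower bound follows by induction with derivatives along the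
solution curves and Ax's theorem, except if `x_2` and `y_0` are algebraic over `ℂ(x_0)`, where the
result on overdetermined systems is used again.
-/

set_option autoImplicit false

open MvPolynomial MeasureTheory Filter Topology

namespace Pool.Agent.Results.MP_209724_lc.DimensionThree

/-- `V` is the set of points of `G_n = ℂ^n × (ℂ^*)^n` on which the prime ideal `I` vanishes: an
irreducible subvariety. -/
structure IsVariety {n : ℕ} (I : Ideal (MvPolynomial (Fin n ⊕ Fin n) ℂ))
    (V : Set (Fin n ⊕ Fin n → ℂ)) : Prop where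
  prime : I.IsPrime
  points : V = {p | (∀ f ∈ I, eval p f = 0) ∧ ∀ j : Fin n, p (Sum.inr j) ≠ 0}
  nonempty : V.Nonempty

/-- the coordinates with index in `J` are algebraically independent on `V` -/
def Indep {n : ℕ} (V : Set (Fin n ⊕ Fin n → ℂ)) (J : Finset (Fin n ⊕ Fin n)) : Prop :=
  ∀ f : MvPolynomial (Fin n ⊕ Fin n) ℂ, f.vars ⊆ J → (∀ p ∈ V, eval p f = 0) → f = 0

/-- `dim V = d`: the largest number of algebraically independent coordinates is `d` -/
def HasDim {n : ℕ} (V : Set (Fin n ⊕ Fin n → ℂ)) (d : ℕ) : Prop :=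
  (∃ J, J.card = d ∧ Indep V J) ∧ ∀ J, J.card = d + 1 → ¬ Indep V J

/-- `V` is free: it lies in no set `∑ m_j x_j = c` and in no set `∏ y_j ^ m_j = c`, `m ≠ 0`. -/
structure Free {n : ℕ} (V : Set (Fin n ⊕ Fin n → ℂ)) : Prop where
  add : ∀ m : Fin n → ℤ, m ≠ 0 → ∀ c : ℂ, ∃ p ∈ V, (∑ j : Fin n, (m j : ℂ) * p (Sum.inl j)) ≠ c
  mul : ∀ m : Fin n → ℤ, m ≠ 0 → ∀ c : ℂ, ∃ p ∈ V, (∏ j : Fin n, p (Sum.inr j) ^ (m j)) ≠ c

/-- the action of an integral matrix: `(x, y) ↦ (M x, y^M)`, `(y^M)_i = ∏_j y_j^(M i j)` -/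
noncomputable def act {n : ℕ} (M : Matrix (Fin n) (Fin n) ℤ) (p : Fin n ⊕ Fin n → ℂ) :
    Fin n ⊕ Fin n → ℂ :=
  Sum.elim (fun i => ∑ j, (M i j : ℂ) * p (Sum.inl j)) (fun i => ∏ j, p (Sum.inr j) ^ M i j)

/-- `V` is rotund: `dim M V ≥ rank M` for all integral matrices `M`, that is, among the coordinates of
the points of `M V` there are `rank M` algebraically independent ones -/
def Rotund {n : ℕ} (V : Set (Fin n ⊕ Fin n → ℂ)) : Prop :=
  ∀ M : Matrix (Fin n) (Fin n) ℤ, ∃ J : Finset (Fin n ⊕ Fin n),
    J.card = (M.map (Int.cast : ℤ → ℚ)).rank ∧ Indep (act M '' V) J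

/-- the translate `c V` -/
def Translate {n : ℕ} (c : Fin n ⊕ Fin n → ℂ) (V : Set (Fin n ⊕ Fin n → ℂ)) :
    Set (Fin n ⊕ Fin n → ℂ) :=
  {p | ∃ u ∈ V, p = Sum.elim (fun i => u (Sum.inl i) + c (Sum.inl i))
    (fun i => c (Sum.inr i) * u (Sum.inr i))}

/-- the exponential point `(z, e^z)` -/
noncomputable def ExpPoint {n : ℕ} (z : Fin n → ℂ) : Fin n ⊕ Fin n → ℂ :=
  Sum.elim z (fun i => Complex.exp (z i))

/-- `tr.deg_{K(c)} K(c)(z, e^z)` -/
noncomputable def trdegOver {n : ℕ} (K : Subfield ℂ) (c : Fin n ⊕ Fin n → ℂ) (z : Fin n → ℂ) :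
    Cardinal :=
  Algebra.trdeg (IntermediateField.adjoin K (Set.range c))
    (IntermediateField.adjoin (IntermediateField.adjoin K (Set.range c)) (Set.range (ExpPoint z)))

/-- every variety has a dimension, at least three for rotund varieties -/
theorem exists_dim {V : Set (Fin 3 ⊕ Fin 3 → ℂ)} (hrot : Rotund V) :
    ∃ d, 3 ≤ d ∧ HasDim V d := by
  classical
  have h0 : ∃ J : Finset (Fin 3 ⊕ Fin 3), J.card = 3 ∧ Indep V J := by
    obtain ⟨J, hJ, hi⟩ := hrot 1
    have e1 : ((1 : Matrix (Fin 3) (Fin 3) ℤ).map (Int.cast : ℤ → ℚ)) = 1 := by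
      rw [Matrix.map_one _ Int.cast_zero Int.cast_one]
    rw [e1, Matrix.rank_one, Fintype.card_fin] at hJ
    refine ⟨J, hJ, ?_⟩
    have e2 : act (1 : Matrix (Fin 3) (Fin 3) ℤ) '' V = V := by
      have e3 : ∀ p : Fin 3 ⊕ Fin 3 → ℂ, act (1 : Matrix (Fin 3) (Fin 3) ℤ) p = p := by
        intro p
        funext i
        rcases i with i | i
        · simp [act, Matrix.one_apply]
        · simp only [act, Sum.elim_inr]
          rw [Finset.prod_eq_single i]
          · simp
          · intro b _ hb
            simp [Ne.symm hb]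
          · intro h
            exact absurd (Finset.mem_univ _) h
      ext p
      simp [e3]
    rwa [e2] at hi
  let P : ℕ → Prop := fun d => ∃ J : Finset (Fin 3 ⊕ Fin 3), J.card = d ∧ Indep V J
  have hP3 : P 3 := h0
  have hb : ∀ m, P m → m ≤ 6 := by
    rintro m ⟨J, hJ, -⟩
    have := Finset.card_le_univ J
    simp only [Fintype.card_sum, Fintype.card_fin] at this
    omega
  refine ⟨Nat.findGreatest P 6, Nat.le_findGreatest (by norm_num) hP3,
    Nat.findGreatest_spec (P := P) (m := 3) (by norm_num) hP3, ?_⟩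
  intro J hJ hi
  have h1 : P (Nat.findGreatest P 6 + 1) := ⟨J, hJ, hi⟩
  have h2 := Nat.le_findGreatest (hb _ h1) h1
  omega

theorem result (I : Ideal (MvPolynomial (Fin 3 ⊕ Fin 3) ℂ))
    (V : Set (Fin 3 ⊕ Fin 3 → ℂ)) (hV : IsVariety I V) (hfree : Free V) (hrot : Rotund V) :
    -- (1) all translates of `V` contain exponential points
    (∀ c : Fin 3 ⊕ Fin 3 → ℂ, (∀ i, c (Sum.inr i) ≠ 0) →
      ∃ z : Fin 3 → ℂ, ExpPoint z ∈ Translate c V) ∧
    -- (2) if `dim V = 3` almost all translates contain generic exponential points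
    (HasDim V 3 → ∀ (K : Subfield ℂ) [Countable K],
      (∃ S : Set (MvPolynomial (Fin 3 ⊕ Fin 3) K),
        I = Ideal.span (MvPolynomial.map (algebraMap K ℂ) '' S)) →
      ∀ᵐ c : Fin 3 ⊕ Fin 3 → ℂ, ∃ z : Fin 3 → ℂ, ExpPoint z ∈ Translate c V ∧
        trdegOver K c z = 3) := by
  have part1 : ∀ c : Fin 3 ⊕ Fin 3 → ℂ, (∀ i, c (Sum.inr i) ≠ 0) →
      ∃ z : Fin 3 → ℂ, ExpPoint z ∈ Translate c V := by
    intro c hc
    obtain ⟨d, hd3, hdim⟩ := exists_dim hrot
    have hV' := Pool.Agent.Q72.EG.isVar_trs hc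
      (⟨hV.prime, hV.points, hV.nonempty⟩ : Pool.Agent.Q72.EG.IsVar I V)
    have hd' := Pool.Agent.Q72.EG.hasDim_trs hc hdim
    refine Pool.Agent.H664.QK.var3 hd3
      _ _ ⟨hV'.prime, hV'.points, hV'.nonempty⟩ ⟨?_, ?_, 
      Pool.Agent.H860.EX.rottr 3 V c hc hrot⟩ hd'.1 hd'.2
    · intro m hm e
      obtain ⟨p, hp, hne⟩ := hfree.add m hm (e - ∑ j, (m j : ℂ) * c (Sum.inl j))
      refine ⟨_, ⟨p, hp, rfl⟩, fun h => hne ?_⟩
      simp only [Sum.elim_inl, mul_add, Finset.sum_add_distrib] at h
      rw [← h]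
      ring
    · intro m hm e
      have hc0 : ∏ j, c (Sum.inr j) ^ m j ≠ 0 :=
        Finset.prod_ne_zero_iff.2 fun j _ => zpow_ne_zero _ (hc j)
      obtain ⟨p, hp, hne⟩ := hfree.mul m hm (e / ∏ j, c (Sum.inr j) ^ m j)
      refine ⟨_, ⟨p, hp, rfl⟩, fun h => hne ?_⟩
      simp only [Sum.elim_inr, mul_zpow, Finset.prod_mul_distrib] at h
      rw [← h]
      field_simp
  refine ⟨part1, ?_⟩
  rintro hdim K hK ⟨S, hS⟩
  obtain ⟨-, hd⟩ := hdim
  have h1 := Pool.Agent.Y563.SE.generic_pts I V hV.prime hV.points hV.nonempty (by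
    intro J' hJ'
    have h1 := hd J' hJ'
    unfold Indep at h1
    push Not at h1
    obtain ⟨f, h2, h3, h4⟩ := h1
    exact ⟨f, h4, h2, h3⟩) K S hS
  have h2 : ∀ᵐ c : Fin 3 ⊕ Fin 3 → ℂ, ∀ i : Fin 3, c (Sum.inr i) ≠ 0 := by
    rw [ae_all_iff]
    intro i
    rw [ae_iff]
    simp only [not_not]
    exact Pool.Agent.Y563.SE.null_fintype (fun c : Fin 3 ⊕ Fin 3 → ℂ => c (Sum.inr i))
      (differentiable_apply _) ⟨fun _ => 1, one_ne_zero⟩
  filter_upwards [h1, h2] with c hc1 hc2
  obtain ⟨z, hz⟩ := part1 c hc2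
  exact ⟨z, hz, hc1 z hz⟩

end Pool.Agent.Results.MP_209724_lc.DimensionThree
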