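import Pool.Agent.H664.FH.VarB

/-!
# Axiom (SEAC) (i) in the complex exponential field: all hypersurfaces, free fibres

`G_n = ℂ^n × (ℂ^*)^n`; its elements are functions on `Fin n ⊕ Fin n` (`Sum.inl`: the coordinates
`x`, `Sum.inr`: the coordinates `y`).  The exponential points are the points `(z, e^z)`.

Let `V ⊆ G_n` be irreducible of dimension `n`, and suppose that the closure of its projection to
`ℂ^n` is a hypersurface `P = 0`, `P` irreducible, which is not a hyperplane `∑ m_j x_j = c` with
integral `m ≠ 0` (additive freeness).  Let `Λ ⊆ ℤ^n` be the set of all `m` such that the monomial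
`y^m` is algebraic over `ℂ(x)` on `V`.  We prove that the exponential points are Zariski dense in
all translates of `V` if `Λ = 0`, without any condition on `P`; and for `Λ ≠ 0` if some
polynomial `f (l_1 x_1 + … + l_n x_n)`, `f` not constant, `l` a real vector which is not in the real
span of `Λ`, is a limit of multiples of translates `P (x + i k)`, `k` real.

If moreover `V` is defined over a countable field `K`, then almost all translates `c V` contain an
exponential point which is generic over `K(c)`, as `(SEAC) (i)` asks.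

So Exponential-Algebraic Closedness holds for all `V` of dimension `n` over a hypersurface, provided
`V` is additively free and its fibres are free in the strong sense that no monomial `y^m`, `m ≠ 0`, is
algebraic over `ℂ(x)`.  Before, this was known (starting files, `FlatLimitProjections`) if `P`
has no flat limit `f (l·x)`, `l ≠ 0`, at all.

Proof.  By the earlier theorem one may assume that `f (l·x)` is a limit of translates of `P`, so there
are holomorphic pieces `i k + u + w(u) e` of the hypersurface over balls `‖u‖ < T^(1/4)`, on which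
`l·x` is almost constant, arbitrarily far away, with `‖k‖ ≤ T^D` (semialgebraic selection).  There the
real part of `l·x` is prescribed, and `x = log y` forces `y` to be close to the real hypersurface
`∑ l_j log |y_j| = Re r` of the fibre, a curve in the torus.
In adapted coordinates of `ℤ^n`, `l` is supported in `J` and its coordinates there are
`ℚ`-independent.  If `#J ≥ 2`, a theorem on curve germs in the torus and a
compactness argument give points of this level set around which the fibres (rescaled, they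
converge along an ultrafilter) are not degenerate; the equations are then solved by Kronecker's
theorem and a fixed point argument.  If `#J = 1`, then `e^{x_j}` is almost constant on the piece, and an
induction with derivatives (there is no exponential function in the function field of a hypersurface)
together with a doubling argument gives large balls on which the fibres are not degenerate.
-/

set_option autoImplicit false

open MvPolynomial MeasureTheory Filter Topology

namespace Pool.Agent.Results.MP_209724_lc.HypersurfaceFreeFibres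

/-- `V` is the set of points of `G_n = ℂ^n × (ℂ^*)^n` on which the prime ideal `I` vanishes: an
irreducible subvariety. -/
structure IsVariety {n : ℕ} (I : Ideal (MvPolynomial (Fin n ⊕ Fin n) ℂ))
    (V : Set (Fin n ⊕ Fin n → ℂ)) : Prop where
  prime : I.IsPrime
  points : V = {p | (∀ f ∈ I, eval p f = 0) ∧ ∀ j : Fin n, p (Sum.inr j) ≠ 0}
  nonempty : V.Nonempty

/-- the coordinates with index in `J` are algebraically independent on `V` -/
def Indep {n : ℕ} (V : Set (Fin n ⊕ Fin n → ℂ)) (J : Finset (Fin n ⊕ Fin n)) : Prop :=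
  ∀ f : MvPolynomial (Fin n ⊕ Fin n) ℂ, f.vars ⊆ J → (∀ p ∈ V, eval p f = 0) → f = 0

/-- `dim V = d`: the largest number of algebraically independent coordinates is `d` -/
def HasDim {n : ℕ} (V : Set (Fin n ⊕ Fin n → ℂ)) (d : ℕ) : Prop :=
  (∃ J, J.card = d ∧ Indep V J) ∧ ∀ J, J.card = d + 1 → ¬ Indep V J

/-- the closure of the projection of `V` to `ℂ^n` is the hypersurface `P = 0` -/
def ProjectsOnto {n : ℕ} (V : Set (Fin n ⊕ Fin n → ℂ)) (P : MvPolynomial (Fin n) ℂ) : Prop :=
  Irreducible P ∧ ∀ f : MvPolynomial (Fin n) ℂ,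
    (∀ p ∈ V, eval (fun l => p (Sum.inl l)) f = 0) ↔ P ∣ f

/-- additive freeness: `V` lies in no set `∑ m_j x_j = c`, `m ∈ ℤ^n` not zero -/
def AddFree {n : ℕ} (V : Set (Fin n ⊕ Fin n → ℂ)) : Prop :=
  ∀ m : Fin n → ℤ, m ≠ 0 → ∀ c : ℂ, ∃ p ∈ V, (∑ j : Fin n, (m j : ℂ) * p (Sum.inl j)) ≠ c

/-- the monomial `y^m` is algebraic over `ℂ(x)` on `V` -/
def MonomialAlgebraic {n : ℕ} (V : Set (Fin n ⊕ Fin n → ℂ)) (P : MvPolynomial (Fin n) ℂ)
    (m : Fin n → ℤ) : Prop :=
  ∃ A : Polynomial (MvPolynomial (Fin n) ℂ), (∃ b, ¬ P ∣ A.coeff b) ∧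
    ∀ p ∈ V, (A.map (eval fun l => p (Sum.inl l))).eval (∏ l, p (Sum.inr l) ^ m l) = 0

/-- the real span of the set of all integral `m` such that `y^m` is algebraic over `ℂ(x)` on `V` -/
def algebraicSpan {n : ℕ} (V : Set (Fin n ⊕ Fin n → ℂ)) (P : MvPolynomial (Fin n) ℂ) :
    Submodule ℝ (Fin n → ℝ) :=
  Submodule.span ℝ
    {v : Fin n → ℝ | ∃ m : Fin n → ℤ, MonomialAlgebraic V P m ∧ v = fun j => (m j : ℝ)}

/-- the value of the polynomial `f (l_1 x_1 + … + l_n x_n)` is, for all `x`, the limit of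
`c_j P (x + i k_j)` for a sequence of real vectors `k_j` and a sequence of numbers `c_j` -/
def FlatLimit {n : ℕ} (P : MvPolynomial (Fin n) ℂ) (l : Fin n → ℝ) (f : Polynomial ℂ) : Prop :=
  ∃ (k : ℕ → Fin n → ℝ) (c : ℕ → ℂ), ∀ x : Fin n → ℂ,
    Tendsto (fun j => c j * eval (fun i => x i + Complex.I * (k j i : ℂ)) P) atTop
      (𝓝 (f.eval (∑ i, (l i : ℂ) * x i)))

/-- the translate `c V` -/
def Translate {n : ℕ} (c : Fin n ⊕ Fin n → ℂ) (V : Set (Fin n ⊕ Fin n → ℂ)) :
    Set (Fin n ⊕ Fin n → ℂ) :=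
  {p | ∃ u ∈ V, p = Sum.elim (fun i => u (Sum.inl i) + c (Sum.inl i))
    (fun i => c (Sum.inr i) * u (Sum.inr i))}

/-- the exponential point `(z, e^z)` -/
noncomputable def ExpPoint {n : ℕ} (z : Fin n → ℂ) : Fin n ⊕ Fin n → ℂ :=
  Sum.elim z (fun i => Complex.exp (z i))

/-- `tr.deg_{K(c)} K(c)(z, e^z)` -/
noncomputable def trdegOver {n : ℕ} (K : Subfield ℂ) (c : Fin n ⊕ Fin n → ℂ) (z : Fin n → ℂ) :
    Cardinal :=
  Algebra.trdeg (IntermediateField.adjoin K (Set.range c))
    (IntermediateField.adjoin (IntermediateField.adjoin K (Set.range c)) (Set.range (ExpPoint z)))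

theorem limOne_of_flat {n : ℕ} {P : MvPolynomial (Fin n) ℂ} {l : Fin n → ℝ} {f : Polynomial ℂ}
    (hf : 1 ≤ f.natDegree) (hl : l ≠ 0) (h : FlatLimit P l f) :
    Pool.Agent.W996.EC.LimOne P (Polynomial.aeval (Pool.Agent.W996.EC.lin l) f) := by
  obtain ⟨k, c, hk⟩ := h
  refine ⟨?_, k, c, ?_⟩
  · intro hz
    obtain ⟨i, hi⟩ : ∃ i, l i ≠ 0 := by
      by_contra hh
      push Not at hh
      exact hl (funext hh)
    have : f = 0 := by
      apply Polynomial.funext
      intro y
      have h1 := Pool.Agent.H664.FH.aeval_lin_evalB l f (Pi.single i (y / (l i : ℂ)))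
      rw [hz, map_zero] at h1
      have h2 : ∑ j, (l j : ℂ) * (Pi.single i (y / (l i : ℂ)) : Fin n → ℂ) j = y := by
        rw [Finset.sum_eq_single i]
        · rw [Pi.single_eq_same]
          have : (l i : ℂ) ≠ 0 := by exact_mod_cast hi
          field_simp
        · intro b _ hb
          rw [Pi.single_eq_of_ne hb, mul_zero]
        · intro h; exact absurd (Finset.mem_univ _) h
      rw [h2] at h1
      rw [← h1]; simp
    rw [this] at hf
    simp at hf
  · apply Pool.Agent.W578.ECPt.t_pt n P.totalDegree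
    · intro j
      refine (totalDegree_mul _ _).trans ?_
      rw [totalDegree_C, zero_add]
      exact Pool.Agent.W996.EC.totalDegree_tr_le _ _ _
    · intro x
      rw [Pool.Agent.H664.FH.aeval_lin_evalB]
      refine (hk x).congr fun j => ?_
      rw [map_mul, Pool.Agent.W996.EC.eval_tr, eval_C]
      simp

theorem result {n : ℕ} (I : Ideal (MvPolynomial (Fin n ⊕ Fin n) ℂ))
    (V : Set (Fin n ⊕ Fin n → ℂ)) (hV : IsVariety I V) (hdim : HasDim V n)
    (P : MvPolynomial (Fin n) ℂ) (hP : ProjectsOnto V P) (hfree : AddFree V)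
    -- if some monomial `y^m`, `m ≠ 0`, is algebraic over `ℂ(x)`, then there is a flat limit
    -- `f (l·x)` of translates of `P` with `l` not in the span of the exponents of such monomials
    (hcase : (∃ m : Fin n → ℤ, m ≠ 0 ∧ MonomialAlgebraic V P m) →
      ∃ (l : Fin n → ℝ) (f : Polynomial ℂ), 1 ≤ f.natDegree ∧ FlatLimit P l f ∧
        l ∉ algebraicSpan V P) :
    -- (1) exponential points are Zariski dense in all translates of `V`
    (∀ c : Fin n ⊕ Fin n → ℂ, (∀ i, c (Sum.inr i) ≠ 0) →
      ∀ H : MvPolynomial (Fin n ⊕ Fin n) ℂ, (∃ p ∈ Translate c V, eval p H ≠ 0) →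
      ∃ z : Fin n → ℂ, ExpPoint z ∈ Translate c V ∧ eval (ExpPoint z) H ≠ 0) ∧
    -- (2) generic exponential points on almost all translates
    (∀ (K : Subfield ℂ) [Countable K],
      (∃ S : Set (MvPolynomial (Fin n ⊕ Fin n) K),
        I = Ideal.span (MvPolynomial.map (algebraMap K ℂ) '' S)) →
      ∀ᵐ c : Fin n ⊕ Fin n → ℂ, ∃ z : Fin n → ℂ, ExpPoint z ∈ Translate c V ∧
        trdegOver K c z = n) := by
  have hadd : Pool.Agent.H664.FH.AddFree P := by
    intro m hm c hd
    rw [← hP.2] at hd
    obtain ⟨p, hp, hne⟩ := hfree m hm c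
    apply hne
    have h1 := hd p hp
    simp only [map_sub, map_sum, map_mul, eval_C, eval_X] at h1
    exact sub_eq_zero.1 h1
  have hcase' : (∀ m : Fin n → ℤ, m ≠ 0 → ¬ Pool.Agent.Q72.EG.MonAlg V P m) ∨
      ∃ (l : Fin n → ℝ) (f : Polynomial ℂ), 1 ≤ f.natDegree ∧
        Pool.Agent.W996.EC.LimOne P (Polynomial.aeval (Pool.Agent.W996.EC.lin l) f) ∧
        l ∉ Pool.Agent.H664.FH.AlgSpan V P := by
    by_cases hm : ∃ m : Fin n → ℤ, m ≠ 0 ∧ MonomialAlgebraic V P m
    swap
    · push Not at hm
      exact Or.inl hm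
    · obtain ⟨l, f, hf, hfl, hl⟩ := hcase hm
      have hl0 : l ≠ 0 := fun h => hl (h ▸ Submodule.zero_mem _)
      exact Or.inr ⟨l, f, hf, limOne_of_flat hf hl0 hfl, hl⟩
  have part1 : ∀ c : Fin n ⊕ Fin n → ℂ, (∀ i, c (Sum.inr i) ≠ 0) →
      ∀ H : MvPolynomial (Fin n ⊕ Fin n) ℂ, (∃ p ∈ Translate c V, eval p H ≠ 0) →
      ∃ z : Fin n → ℂ, ExpPoint z ∈ Translate c V ∧ eval (ExpPoint z) H ≠ 0 := fun c hc =>
    Pool.Agent.H664.FH.denseB n I V P ⟨hV.prime, hV.points, hV.nonempty⟩ hdim hP hadd hcase' c hc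
  refine ⟨part1, ?_⟩
  rintro K hK ⟨S, hS⟩
  obtain ⟨-, hd⟩ := hdim
  have h1 := Pool.Agent.Y563.SE.generic_pts I V hV.prime hV.points hV.nonempty (by
    intro J' hJ'
    have h1 := hd J' hJ'
    unfold Indep at h1
    push Not at h1
    obtain ⟨f, h2, h3, h4⟩ := h1
    exact ⟨f, h4, h2, h3⟩) K S hS
  have h2 : ∀ᵐ c : Fin n ⊕ Fin n → ℂ, ∀ i : Fin n, c (Sum.inr i) ≠ 0 := by
    rw [ae_all_iff]
    intro i
    rw [ae_iff]
    simp only [not_not]
    exact Pool.Agent.Y563.SE.null_fintype (fun c : Fin n ⊕ Fin n → ℂ => c (Sum.inr i))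
      (differentiable_apply _) ⟨fun _ => 1, one_ne_zero⟩
  filter_upwards [h1, h2] with c hc1 hc2
  obtain ⟨u, hu⟩ := hV.nonempty
  obtain ⟨z, hz, -⟩ := part1 c hc2 1 ⟨_, ⟨u, hu, rfl⟩, by simp⟩
  exact ⟨z, hz, hc1 z hz⟩

end Pool.Agent.Results.MP_209724_lc.HypersurfaceFreeFibres
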