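import Pool.Agent.H489.EX.O

/-!
# MP_209724_lc: axiom (SC) for the complex exponential on algebraic curves

Let `W` be a subset of `ℂ²ⁿ`, `n ≥ 2`, such that any two of the `2n` coordinates satisfy on `W` a
fixed nonzero polynomial relation with integer coefficients (every algebraic set of dimension at
most one which is defined over the algebraic numbers is such a set).  A `z ∈ ℂⁿ`, linearly
independent over `ℚ`, with `(z, exp z) ∈ W` is a counterexample to Schanuel's conjecture.

(1) If `W` contains an infinite sequence of such counterexamples then all their coordinates tend to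
infinity, and the real parts of all their coordinates tend to zero: for `δ > 0` and `B` there are
only finitely many counterexamples `z` with `|Re z_i| ≥ δ` or `|z_i| ≤ B` for some `i`.

(2) There are only finitely many counterexamples on `W` if `W` has no unitary point at infinity: no
`(x, y) ∈ W` such that for all `i` the absolute value of `x_i` is large, the real part of `x_i` is
small and the absolute value of `y_i` is close to `1`.

(3) If `V` is such a subset of `ℂ³` then there are only finitely many `z` such that `z` and `exp z`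
are linearly independent over `ℚ` and `(z, exp z, exp (exp z)) ∈ V`.
-/

namespace Pool.Agent.Results.MP_209724_lc.SchanuelOnCurves

/-- any two coordinates satisfy on `W` a nonzero polynomial relation with integer coefficients -/
def OnCurve {ι : Type} (W : Set (ι → ℂ)) : Prop :=
  ∀ a b : ι, a ≠ b → ∃ P : MvPolynomial (Fin 2) ℤ, P ≠ 0 ∧
    ∀ x ∈ W, MvPolynomial.aeval ![x a, x b] P = 0

/-- the `z ∈ ℂⁿ`, linearly independent over `ℚ`, with `(z, exp z) ∈ W` -/
def Exceptional {n : ℕ} (W : Set (Fin n ⊕ Fin n → ℂ)) : Set (Fin n → ℂ) :=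
  {z | LinearIndependent ℚ z ∧ Sum.elim z (fun i => Complex.exp (z i)) ∈ W}

theorem result :
    (∀ n : ℕ, 2 ≤ n → ∀ W : Set (Fin n ⊕ Fin n → ℂ), OnCurve W →
      (∀ δ B : ℝ, 0 < δ → {z ∈ Exceptional W | ∃ i, δ ≤ |(z i).re| ∨ ‖z i‖ ≤ B}.Finite) ∧
      (∀ ε R : ℝ, 0 < ε →
        (¬ ∃ p ∈ W, ∀ i, R ≤ ‖p (Sum.inl i)‖ ∧ |(p (Sum.inl i)).re| ≤ ε ∧
          |‖p (Sum.inr i)‖ - 1| ≤ ε) → (Exceptional W).Finite)) ∧
    (∀ V : Set (Fin 3 → ℂ), OnCurve V →
      {z : ℂ | LinearIndependent ℚ ![z, Complex.exp z] ∧
        ![z, Complex.exp z, Complex.exp (Complex.exp z)] ∈ V}.Finite) := by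
  refine ⟨fun n hn W hW => ?_, fun V hV => Pool.Agent.H489.EX.iter_finite V hV⟩
  have : Nontrivial (Fin n) := Fin.nontrivial_iff_two_le.2 hn
  exact ⟨fun δ B hδ => Pool.Agent.H489.EX.tuple_both W hW hδ B,
    fun ε R hε h => Pool.Agent.H489.EX.tuple_unit W hW hε h⟩

end Pool.Agent.Results.MP_209724_lc.SchanuelOnCurves
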